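import Mathlib
import Pool.Agent.H34.Thresh2

namespace Pool.Agent.Results.MP_96963f_co.NLogN
open Pool.Agent.H34.ThreshDefs

/-- `M(n) ≥ 2 ^ (⌊n / 256⌋ (⌊log₂ n⌋ - 6))`: if every `m`-asummable switching function on `n ≥ 64`
variables is weighted threshold, then `m` is at least this number. -/
theorem result (n : ℕ) (hn : 64 ≤ n) (m : ℕ)
    (h : ∀ f : (Fin n → Bool) → Bool, Monotone f → Asummable f m → Weighted f) :
    2 ^ (n / 256 * (Nat.log 2 n - 6)) ≤ m :=
  Pool.Agent.H34.Thresh2.main n m h hn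

end Pool.Agent.Results.MP_96963f_co.NLogN
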